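import Mathlib

set_option autoImplicit false

/-!
Number-theoretic identities: binomial coefficients, factorials and the products
`prod_{k<y} (1 + (k+1) t)` expressed through exponentiation, division and remainders.
-/

namespace Pool.Agent.H96.DPRM

open Finset

theorem choose_eq_pow (n k : ℕ) :
    n.choose k = ((2 ^ n + 1 + 1) ^ n / (2 ^ n + 1) ^ k) % (2 ^ n + 1) := by
  set u : ℕ := 2 ^ n + 1 with hu
  have hu0 : 0 < u := Nat.succ_pos _
  have h1 : (u + 1) ^ n = ∑ i ∈ range (k + (n + 2)), n.choose i * u ^ i := by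
    have h2 : (u + 1) ^ n = ∑ i ∈ range (n + 1), n.choose i * u ^ i := by
      rw [add_pow]
      refine Finset.sum_congr rfl fun i _ => ?_
      simp [mul_comm]
    rw [h2]
    refine Finset.sum_subset ?_ ?_
    · intro i hi
      simp only [mem_range] at hi ⊢
      omega
    · intro i _ hi
      simp only [mem_range, not_lt] at hi
      rw [Nat.choose_eq_zero_of_lt (by omega), zero_mul]
  have h3 : (u + 1) ^ n = (∑ i ∈ range k, n.choose i * u ^ i) +
      u ^ k * (n.choose k + u * ∑ j ∈ range (n + 1), n.choose (k + (j + 1)) * u ^ j) := by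
    rw [h1, Finset.sum_range_add, Finset.sum_range_succ' (fun j => n.choose (k + j) * u ^ (k + j))]
    congr 1
    rw [mul_add, Finset.mul_sum, Finset.mul_sum, add_comm]
    congr 1
    · simp [mul_comm]
    · refine Finset.sum_congr rfl fun j _ => ?_
      ring
  have h4 : (∑ i ∈ range k, n.choose i * u ^ i) < u ^ k := by
    have h5 : (∑ i ∈ range k, n.choose i * u ^ i) * u ≤ 2 ^ n * u ^ k := by
      rw [Finset.sum_mul]
      calc ∑ i ∈ range k, n.choose i * u ^ i * u
          ≤ ∑ i ∈ range k, n.choose i * u ^ k := by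
            refine Finset.sum_le_sum fun i hi => ?_
            rw [mul_assoc, ← pow_succ]
            exact Nat.mul_le_mul_left _ (Nat.pow_le_pow_right hu0 (mem_range.1 hi))
        _ = (∑ i ∈ range k, n.choose i) * u ^ k := by rw [Finset.sum_mul]
        _ ≤ (∑ i ∈ range (k + (n + 1)), n.choose i) * u ^ k := by
            refine Nat.mul_le_mul_right _ ?_
            exact Finset.sum_le_sum_of_subset (by intro i hi; simp only [mem_range] at hi ⊢; omega)
        _ = 2 ^ n * u ^ k := by
            congr 1
            rw [← Nat.sum_range_choose n]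
            symm
            refine Finset.sum_subset ?_ ?_
            · intro i hi
              simp only [mem_range] at hi ⊢
              omega
            · intro i _ hi
              simp only [mem_range, not_lt] at hi
              rw [Nat.choose_eq_zero_of_lt (by omega)]
    have h6 : 2 ^ n * u ^ k < u ^ k * u := by
      rw [mul_comm]
      exact Nat.mul_lt_mul_of_pos_left (by omega) (pow_pos hu0 k)
    exact lt_of_mul_lt_mul_right (lt_of_le_of_lt h5 h6) hu0.le
  have h7 : (u + 1) ^ n / u ^ k =
      n.choose k + u * ∑ j ∈ range (n + 1), n.choose (k + (j + 1)) * u ^ j := by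
    rw [h3, Nat.add_mul_div_left _ _ (pow_pos hu0 k), Nat.div_eq_of_lt h4, zero_add]
  rw [h7, Nat.add_mul_mod_self_left]
  refine (Nat.mod_eq_of_lt ?_).symm
  have : n.choose k ≤ 2 ^ n := by
    exact Nat.choose_le_two_pow n k
  omega

theorem bern (m d n : ℕ) : (m + d) ^ (n + 1) ≤ m ^ (n + 1) + (n + 1) * d * (m + d) ^ n := by
  induction n with
  | zero => simp
  | succ n ih =>
    calc (m + d) ^ (n + 1 + 1) = (m + d) ^ (n + 1) * m + (m + d) ^ (n + 1) * d := by ring
      _ ≤ (m ^ (n + 1) + (n + 1) * d * (m + d) ^ n) * m + (m + d) ^ (n + 1) * d := by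
          gcongr
      _ = m ^ (n + 1 + 1) + (n + 1) * d * ((m + d) ^ n * m) + (m + d) ^ (n + 1) * d := by ring
      _ ≤ m ^ (n + 1 + 1) + (n + 1) * d * ((m + d) ^ n * (m + d)) + (m + d) ^ (n + 1) * d := by
          gcongr
          omega
      _ = m ^ (n + 1 + 1) + (n + 1 + 1) * d * (m + d) ^ (n + 1) := by ring

theorem factorial_eq_div (n : ℕ) :
    n.factorial = ((n + 1) ^ (n + 3)) ^ n / ((n + 1) ^ (n + 3)).choose n := by
  set r : ℕ := (n + 1) ^ (n + 3) with hr
  have hnr : n ≤ r := by
    calc n ≤ n + 1 := by omega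
      _ = (n + 1) ^ 1 := (pow_one _).symm
      _ ≤ r := Nat.pow_le_pow_right (by omega) (by omega)
  have hpos : 0 < r.choose n := Nat.choose_pos hnr
  have hd : r.descFactorial n = n.factorial * r.choose n := Nat.descFactorial_eq_factorial_mul_choose r n
  have hle : r.descFactorial n ≤ r ^ n := Nat.descFactorial_le_pow r n
  have key : n.factorial * r ^ n < (n.factorial + 1) * r.descFactorial n := by
    rcases n with _ | n
    · simp
    · have hfn : (n + 1).factorial ≤ (n + 1 + 1) ^ (n + 1) := by
        calc (n + 1).factorial ≤ (n + 1) ^ (n + 1) := Nat.factorial_le_pow _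
          _ ≤ (n + 1 + 1) ^ (n + 1) := Nat.pow_le_pow_left (by omega) _
      have h1 : (r - n) ^ (n + 1) ≤ r.descFactorial (n + 1) := by
        have := Nat.pow_sub_le_descFactorial r (n + 1)
        have h2 : r + 1 - (n + 1) = r - n := by omega
        rwa [h2] at this
      obtain ⟨m, hm⟩ : ∃ m, r = m + n := ⟨r - n, by omega⟩
      have h2 : r - n = m := by omega
      rw [h2] at h1
      have h3 := bern m n n
      rw [← hm] at h3
      have h4 : ((n + 1).factorial + 1) * ((n + 1) * n) < r := by
        have h5 : (n + 1).factorial + 1 ≤ 2 * (n + 1 + 1) ^ (n + 1) := by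
          have : 0 < (n + 1 + 1) ^ (n + 1) := by positivity
          omega
        calc ((n + 1).factorial + 1) * ((n + 1) * n)
            ≤ (2 * (n + 1 + 1) ^ (n + 1)) * ((n + 1) * n) := by gcongr
          _ < (n + 1 + 1) ^ (n + 1) * ((n + 1 + 1) ^ 3) := by
              have h6 : 2 * ((n + 1) * n) < (n + 1 + 1) ^ 3 := by nlinarith [sq_nonneg n]
              have h7 : 0 < (n + 1 + 1) ^ (n + 1) := by positivity
              calc (2 * (n + 1 + 1) ^ (n + 1)) * ((n + 1) * n)
                  = (n + 1 + 1) ^ (n + 1) * (2 * ((n + 1) * n)) := by ring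
                _ < (n + 1 + 1) ^ (n + 1) * ((n + 1 + 1) ^ 3) := Nat.mul_lt_mul_of_pos_left h6 h7
          _ = r := by rw [hr, ← pow_add]
      have hr0 : 0 < r ^ n := by positivity
      have h8 : ((n + 1).factorial + 1) * ((n + 1) * n * r ^ n) < r ^ (n + 1) := by
        calc ((n + 1).factorial + 1) * ((n + 1) * n * r ^ n)
            = (((n + 1).factorial + 1) * ((n + 1) * n)) * r ^ n := by ring
          _ < r * r ^ n := Nat.mul_lt_mul_of_pos_right h4 hr0
          _ = r ^ (n + 1) := by ring
      have h9 : ((n + 1).factorial + 1) * r ^ (n + 1) ≤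
          ((n + 1).factorial + 1) * m ^ (n + 1) + ((n + 1).factorial + 1) * ((n + 1) * n * r ^ n) := by
        rw [← mul_add]
        exact Nat.mul_le_mul_left _ h3
      have h10 : ((n + 1).factorial + 1) * m ^ (n + 1) ≤
          ((n + 1).factorial + 1) * r.descFactorial (n + 1) := Nat.mul_le_mul_left _ h1
      have h11 : ((n + 1).factorial + 1) * r ^ (n + 1) =
          (n + 1).factorial * r ^ (n + 1) + r ^ (n + 1) := by ring
      omega
  symm
  rw [Nat.div_eq_iff hpos]
  constructor
  · rw [← hd]
    exact hle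
  · rw [hd] at key
    have h1 : n.factorial * r ^ n < n.factorial * ((n.factorial + 1) * r.choose n) := by
      calc _ < _ := key
        _ = _ := by ring
    have h2 := lt_of_mul_lt_mul_left h1 (Nat.zero_le _)
    have h3 : (n.factorial + 1) * r.choose n = n.factorial * r.choose n + r.choose n := by ring
    omega

theorem prod_eq_mod (t y : ℕ) (ht : 0 < t) :
    ∏ k ∈ range y, (1 + (k + 1) * t) =
      (t ^ y * (y.factorial * ((t - 1) * (1 + t * y) ^ y + 1 + y).choose y)) %
        (t * (1 + t * y) ^ y + 1) := by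
  set W : ℕ := (1 + t * y) ^ y with hW
  set q : ℕ := (t - 1) * W + 1 with hq
  have hWpos : 0 < W := by positivity
  have h1 : y.factorial * (q + y).choose y = ∏ i ∈ range y, (q + 1 + i) := by
    rw [← Nat.ascFactorial_eq_factorial_mul_choose, Nat.ascFactorial_eq_prod_range]
  have h2 : t ^ y * (y.factorial * (q + y).choose y) = ∏ i ∈ range y, (t * (q + 1 + i)) := by
    rw [h1, Finset.prod_mul_distrib]
    simp
  have h3 : t * q = (t - 1) * (t * W + 1) + 1 := by
    obtain ⟨s, rfl⟩ : ∃ s, t = s + 1 := ⟨t - 1, by omega⟩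
    simp only [hq, Nat.add_sub_cancel]
    ring
  have h4 : ∏ i ∈ range y, (t * (q + 1 + i)) ≡ ∏ k ∈ range y, (1 + (k + 1) * t)
      [MOD t * W + 1] := by
    refine Nat.ModEq.prod fun i _ => ?_
    have h5 : t * (q + 1 + i) = (1 + (i + 1) * t) + (t - 1) * (t * W + 1) := by
      have : t * (q + 1 + i) = t * q + (i + 1) * t := by ring
      rw [this, h3]
      ring
    rw [h5]
    exact Nat.add_mul_modulus_modEq_iff.2 rfl
  have h6 : ∏ k ∈ range y, (1 + (k + 1) * t) < t * W + 1 := by
    have h7 : ∏ k ∈ range y, (1 + (k + 1) * t) ≤ W := by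
      rw [hW]
      calc ∏ k ∈ range y, (1 + (k + 1) * t) ≤ ∏ _k ∈ range y, (1 + t * y) := by
            refine Finset.prod_le_prod' fun k hk => ?_
            have := mem_range.1 hk
            have h8 : (k + 1) * t ≤ y * t := Nat.mul_le_mul_right _ (by omega)
            have h9 : y * t = t * y := mul_comm _ _
            omega
        _ = (1 + t * y) ^ y := by simp
    have h8 : W ≤ t * W := Nat.le_mul_of_pos_left _ ht
    omega
  rw [h2]
  have h7 : (∏ i ∈ range y, (t * (q + 1 + i))) % (t * W + 1) =
      (∏ k ∈ range y, (1 + (k + 1) * t)) % (t * W + 1) := h4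
  rw [h7, Nat.mod_eq_of_lt h6]

end Pool.Agent.H96.DPRM
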