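import Mathlib
import Pool.Agent.H96.DPRM.Arith

set_option autoImplicit false

/-!
The bounded universal quantifier theorem for Diophantine sets.
-/

namespace Pool.Agent.H96.DPRM

open Dioph Finset

section fns

variable {α : Type} {f g : (α → ℕ) → ℕ}

theorem fn_congr {f g : (α → ℕ) → ℕ} (df : DiophFn f) (h : ∀ v, f v = g v) : DiophFn g := by
  have : f = g := funext h
  rwa [← this]

theorem cst_dioph (n : ℕ) : DiophFn (fun _ : α → ℕ => n) := Dioph.const_dioph n

theorem choose_dioph (df : DiophFn f) (dg : DiophFn g) :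
    DiophFn fun v => (f v).choose (g v) := by
  have h2 : DiophFn fun v : α → ℕ => 2 ^ f v + 1 := add_dioph (pow_dioph (cst_dioph 2) df) (cst_dioph 1)
  exact fn_congr (mod_dioph (div_dioph (pow_dioph (add_dioph h2 (cst_dioph 1)) df)
    (pow_dioph h2 dg)) h2) fun v => (choose_eq_pow (f v) (g v)).symm

theorem factorial_dioph (df : DiophFn f) : DiophFn fun v => (f v).factorial := by
  have h : DiophFn fun v : α → ℕ => (f v + 1) ^ (f v + 3) :=
    pow_dioph (add_dioph df (cst_dioph 1)) (add_dioph df (cst_dioph 3))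
  exact fn_congr (div_dioph (pow_dioph h df) (choose_dioph h df)) fun v =>
    (factorial_eq_div (f v)).symm

theorem descFactorial_dioph (df : DiophFn f) (dg : DiophFn g) :
    DiophFn fun v => (f v).descFactorial (g v) :=
  fn_congr (mul_dioph (factorial_dioph dg) (choose_dioph df dg)) fun v =>
    (Nat.descFactorial_eq_factorial_mul_choose (f v) (g v)).symm

/-- The product `prod_{k<y} (1 + (k+1) (t+1))`. -/
def bprod (t y : ℕ) : ℕ := ∏ k ∈ range y, (1 + (k + 1) * t)

theorem bprod_dioph (dt : DiophFn f) (dy : DiophFn g) :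
    DiophFn fun v => bprod (f v + 1) (g v) := by
  have dt1 := add_dioph dt (cst_dioph 1)
  have hW : DiophFn fun v : α → ℕ => (1 + (f v + 1) * g v) ^ g v :=
    pow_dioph (add_dioph (cst_dioph 1) (mul_dioph dt1 dy)) dy
  have hq := add_dioph (add_dioph (mul_dioph (sub_dioph dt1 (cst_dioph 1)) hW) (cst_dioph 1)) dy
  exact fn_congr (mod_dioph (mul_dioph (pow_dioph dt1 dy) (mul_dioph (factorial_dioph dy)
    (choose_dioph hq dy))) (add_dioph (mul_dioph dt1 hW) (cst_dioph 1))) fun v =>
    (prod_eq_mod (f v + 1) (g v) (Nat.succ_pos _)).symm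

theorem forall_dioph {ι : Type} [Fintype ι] {S : ι → Set (α → ℕ)} (h : ∀ i, Dioph (S i)) :
    Dioph {v | ∀ i, v ∈ S i} := by
  classical
  have key : ∀ s : Finset ι, Dioph {v : α → ℕ | ∀ i ∈ s, v ∈ S i} := by
    intro s
    induction s using Finset.induction_on with
    | empty =>
      refine Dioph.ext (S := {v : α → ℕ | (fun _ => 0 : (α → ℕ) → ℕ) v = (fun _ => 0) v})
        (eq_dioph (cst_dioph 0) (cst_dioph 0)) fun v => by simp
    | insert a s _ ih =>
      exact Dioph.ext ((h a).inter ih) fun v => by simp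
  exact Dioph.ext (key Finset.univ) fun v => by simp

end fns

section poly

/-- A polynomial depends on finitely many variables. -/
theorem poly_finite {α : Type} (p : Poly α) :
    ∃ (s : Finset α) (q : Poly {x // x ∈ s}), p = Poly.map Subtype.val q := by
  classical
  have aux : ∀ (s t : Finset α) (h : s ⊆ t) (q : Poly {x // x ∈ s}),
      ∃ q' : Poly {x // x ∈ t}, Poly.map (Subtype.val : _ → α) q = Poly.map (Subtype.val : _ → α) q' := by
    intro s t h q
    refine ⟨Poly.map (fun x : {x // x ∈ s} => (⟨x.1, h x.2⟩ : {x // x ∈ t})) q, ?_⟩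
    ext v
    simp [Poly.map_apply, Function.comp_def]
  induction p using Poly.induction with
  | H1 i =>
    refine ⟨{i}, Poly.proj ⟨i, by simp⟩, ?_⟩
    ext v
    simp
  | H2 n =>
    refine ⟨∅, Poly.const n, ?_⟩
    ext v
    simp
  | H3 f g hf hg =>
    obtain ⟨s, q, rfl⟩ := hf
    obtain ⟨t, r, rfl⟩ := hg
    obtain ⟨q', hq'⟩ := aux s (s ∪ t) Finset.subset_union_left q
    obtain ⟨r', hr'⟩ := aux t (s ∪ t) Finset.subset_union_right r
    refine ⟨s ∪ t, q' - r', ?_⟩
    rw [hq', hr']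
    ext v
    simp
  | H4 f g hf hg =>
    obtain ⟨s, q, rfl⟩ := hf
    obtain ⟨t, r, rfl⟩ := hg
    obtain ⟨q', hq'⟩ := aux s (s ∪ t) Finset.subset_union_left q
    obtain ⟨r', hr'⟩ := aux t (s ∪ t) Finset.subset_union_right r
    refine ⟨s ∪ t, q' * r', ?_⟩
    rw [hq', hr']
    ext v
    simp

/-- Diophantine sets need finitely many dummy variables only. -/
theorem dioph_finite {α : Type} {S : Set (α → ℕ)} (h : Dioph S) :
    ∃ (m : ℕ) (p : Poly (α ⊕ Fin m)), ∀ v, v ∈ S ↔ ∃ t : Fin m → ℕ, p (Sum.elim v t) = 0 := by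
  classical
  obtain ⟨β, p, hp⟩ := h
  obtain ⟨s, q, rfl⟩ := poly_finite p
  set β' : Type := {b : β // Sum.inr b ∈ s} with hβ'
  have : Fintype β' := by
    refine Fintype.ofInjective (fun b : β' => (⟨Sum.inr b.1, b.2⟩ : {x // x ∈ s})) ?_
    intro a b hab
    simp only [Subtype.mk.injEq, Sum.inr.injEq] at hab
    exact Subtype.ext hab
  let e : β' ≃ Fin (Fintype.card β') := Fintype.equivFin β'
  let F : {x // x ∈ s} → α ⊕ Fin (Fintype.card β') := fun x =>
    match x with
    | ⟨Sum.inl a, _⟩ => Sum.inl a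
    | ⟨Sum.inr b, hb⟩ => Sum.inr (e ⟨b, hb⟩)
  refine ⟨Fintype.card β', q.map F, fun v => ?_⟩
  rw [hp]
  constructor
  · rintro ⟨t, ht⟩
    refine ⟨fun i => t (e.symm i).1, ?_⟩
    rw [← ht]
    simp only [Poly.map_apply]
    congr 1
    funext x
    rcases x with ⟨a | b, hx⟩
    · rfl
    · simp [F]
  · rintro ⟨t, ht⟩
    refine ⟨fun b => if hb : Sum.inr b ∈ s then t (e ⟨b, hb⟩) else 0, ?_⟩
    rw [← ht]
    simp only [Poly.map_apply]
    congr 1
    funext x
    rcases x with ⟨a | b, hx⟩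
    · rfl
    · simp [F, hx]

/-- A monotone polynomial bound for the absolute value. -/
theorem poly_bound {α : Type} (p : Poly α) :
    ∃ q : Poly α, ∀ v w : α → ℕ, (∀ i, v i ≤ w i) → |p v| ≤ q w := by
  induction p using Poly.induction with
  | H1 i =>
    refine ⟨Poly.proj i, fun v w h => ?_⟩
    simp only [Poly.proj_apply, Nat.abs_cast, Nat.cast_le]
    exact h i
  | H2 n =>
    refine ⟨Poly.const |n|, fun v w h => ?_⟩
    simp
  | H3 f g hf hg =>
    obtain ⟨q, hq⟩ := hf
    obtain ⟨r, hr⟩ := hg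
    refine ⟨q + r, fun v w h => ?_⟩
    rw [Poly.sub_apply, Poly.add_apply]
    exact (abs_sub _ _).trans (add_le_add (hq v w h) (hr v w h))
  | H4 f g hf hg =>
    obtain ⟨q, hq⟩ := hf
    obtain ⟨r, hr⟩ := hg
    refine ⟨q * r, fun v w h => ?_⟩
    rw [Poly.mul_apply, Poly.mul_apply, abs_mul]
    exact mul_le_mul (hq v w h) (hr v w h) (abs_nonneg _) ((abs_nonneg _).trans (hq v w h))

/-- Polynomials respect congruences. -/
theorem poly_congr {α : Type} (p : Poly α) (m : ℕ) (v w : α → ℕ) (h : ∀ i, v i ≡ w i [MOD m]) :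
    (m : ℤ) ∣ p v - p w := by
  induction p using Poly.induction with
  | H1 i =>
    simp only [Poly.proj_apply]
    have := (Nat.modEq_iff_dvd.1 (h i).symm)
    exact this
  | H2 n => simp
  | H3 f g hf hg =>
    have : (f - g) v - (f - g) w = (f v - f w) - (g v - g w) := by
      simp only [Poly.sub_apply]
      ring
    rw [this]
    exact dvd_sub hf hg
  | H4 f g hf hg =>
    have : (f * g) v - (f * g) w = (f v - f w) * g v + f w * (g v - g w) := by
      simp only [Poly.mul_apply]
      ring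
    rw [this]
    exact dvd_add (Dvd.dvd.mul_right hf _) (Dvd.dvd.mul_left hg _)

end poly

section key

theorem bprod_form (T y : ℕ) : ∃ c, bprod T y = 1 + c * T ∧ y ≤ c := by
  induction y with
  | zero => exact ⟨0, by simp [bprod], le_refl _⟩
  | succ y ih =>
    obtain ⟨c, hc, hyc⟩ := ih
    refine ⟨c + (y + 1) + c * (y + 1) * T, ?_, by nlinarith⟩
    have : bprod T (y + 1) = bprod T y * (1 + (y + 1) * T) := by
      simp [bprod, Finset.prod_range_succ]
    rw [this, hc]
    ring

theorem modEq_of_dvd_both {r k c T : ℕ} (h1 : r ∣ 1 + (k + 1) * T) (h2 : r ∣ 1 + (c + 1) * T) :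
    k ≡ c [MOD r] := by
  have hco : Nat.Coprime r T := by
    rw [Nat.coprime_iff_gcd_eq_one]
    have h3 : Nat.gcd r T ∣ 1 + (k + 1) * T := (Nat.gcd_dvd_left r T).trans h1
    have h4 : Nat.gcd r T ∣ (k + 1) * T := (Nat.gcd_dvd_right r T).trans (Dvd.intro_left _ rfl)
    have h5 : Nat.gcd r T ∣ 1 := (Nat.dvd_add_left h4).1 h3
    exact Nat.dvd_one.1 h5
  have h3 : 1 + (k + 1) * T ≡ 1 + (c + 1) * T [MOD r] :=
    ((Nat.modEq_zero_iff_dvd.2 h1).trans (Nat.modEq_zero_iff_dvd.2 h2).symm)
  have h4 : (k + 1) * T ≡ (c + 1) * T [MOD r] := Nat.ModEq.add_left_cancel' 1 h3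
  have h5 : k + 1 ≡ c + 1 [MOD r] := Nat.ModEq.cancel_right_of_coprime hco h4
  exact Nat.ModEq.add_right_cancel' 1 h5

theorem coprime_moduli {T y k l : ℕ} (hT : ∀ d, 0 < d → d ≤ y → d ∣ T) (hk : k < y) (hl : l < y)
    (hkl : k ≠ l) : Nat.Coprime (1 + (k + 1) * T) (1 + (l + 1) * T) := by
  have main : ∀ k l : ℕ, k < l → l < y → Nat.Coprime (1 + (k + 1) * T) (1 + (l + 1) * T) := by
    intro k l hkl hl
    rw [add_comm 1 ((k + 1) * T), add_comm 1 ((l + 1) * T)]
    exact Nat.coprime_mul_succ (by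
      have : l + 1 - (k + 1) = l - k := by omega
      rw [this]
      exact hT _ (by omega) (by omega))
  rcases lt_or_gt_of_ne hkl with h | h
  · exact main k l h hl
  · exact (main l k h hk).symm

variable {α : Type} {m : ℕ}

/-- The modulus base. -/
def baseT (q : Poly (Option α ⊕ Fin m)) (v : α → ℕ) (y u : ℕ) : ℕ :=
  ((q (Sum.elim (Option.elim' y v) (fun _ => u))).natAbs + u + y).factorial

theorem key_iff (p q : Poly (Option α ⊕ Fin m))
    (hq : ∀ v w : Option α ⊕ Fin m → ℕ, (∀ i, v i ≤ w i) → |p v| ≤ q w)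
    (v : α → ℕ) (y : ℕ) (hy : 0 < y) :
    (∀ k < y, ∃ t : Fin m → ℕ, p (Sum.elim (Option.elim' k v) t) = 0) ↔
    ∃ (u c : ℕ) (a : Fin m → ℕ),
      1 + (c + 1) * baseT q v y u = bprod (baseT q v y u) y ∧
      (∀ i, 1 + (c + 1) * baseT q v y u ∣ (a i).descFactorial (u + 1)) ∧
      1 + (c + 1) * baseT q v y u ∣ (p (Sum.elim (Option.elim' c v) a)).natAbs := by
  constructor
  · intro h
    choose! t ht using h
    set u : ℕ := (range y ×ˢ (Finset.univ : Finset (Fin m))).sup (fun x => t x.1 x.2) with hu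
    have htu : ∀ k < y, ∀ i, t k i ≤ u := by
      intro k hk i
      exact Finset.le_sup (f := fun x : ℕ × Fin m => t x.1 x.2)
        (show (k, i) ∈ range y ×ˢ (Finset.univ : Finset (Fin m)) by simp [hk])
    set T : ℕ := baseT q v y u with hT
    have hdT : ∀ d, 0 < d → d ≤ y → d ∣ T := by
      intro d hd hdy
      exact Nat.dvd_factorial hd (by omega)
    obtain ⟨c', hc', hyc'⟩ := bprod_form T y
    obtain ⟨c, rfl⟩ : ∃ c, c' = c + 1 := ⟨c' - 1, by omega⟩
    have hpw : Set.Pairwise (↑(range y) : Set ℕ)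
        (Function.onFun Nat.Coprime (fun k => 1 + (k + 1) * T)) := by
      intro k hk l hl hkl
      simp only [coe_range, Set.mem_Iio] at hk hl
      exact coprime_moduli hdT hk hl hkl
    have hcrt : ∀ i : Fin m, ∃ x : ℕ, ∀ k ∈ range y, x ≡ t k i [MOD 1 + (k + 1) * T] := by
      intro i
      exact ⟨_, (Nat.chineseRemainderOfFinset (fun k => t k i) (fun k => 1 + (k + 1) * T) (range y)
        (fun k _ => by positivity) hpw).2⟩
    choose a ha using hcrt
    have hMN : ∀ k < y, 1 + (k + 1) * T ∣ 1 + (c + 1) * T := by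
      intro k hk
      rw [← hc']
      exact Finset.dvd_prod_of_mem (fun k => 1 + (k + 1) * T) (mem_range.2 hk)
    have hprod : ∀ z : ℕ, (∀ k < y, 1 + (k + 1) * T ∣ z) → 1 + (c + 1) * T ∣ z := by
      intro z hz
      rw [← hc']
      refine Finset.prod_dvd_of_isRelPrime ?_ (fun k hk => hz k (mem_range.1 hk))
      intro k hk l hl hkl
      exact Nat.coprime_iff_isRelPrime.1 (hpw hk hl hkl)
    refine ⟨u, c, a, hc'.symm, fun i => ?_, ?_⟩
    · refine hprod _ fun k hk => ?_
      have hm := ha i k (mem_range.2 hk)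
      rcases Nat.lt_or_ge (a i) (t k i) with hlt | hge
      · rw [Nat.descFactorial_of_lt (by have := htu k hk i; omega)]
        exact dvd_zero _
      · have h1 : 1 + (k + 1) * T ∣ a i - t k i := (Nat.modEq_iff_dvd' hge).1 hm.symm
        refine h1.trans ?_
        rw [Nat.descFactorial_eq_prod_range]
        exact Finset.dvd_prod_of_mem (fun j => a i - j)
          (mem_range.2 (by have := htu k hk i; omega))
    · refine hprod _ fun k hk => ?_
      have hkc : k ≡ c [MOD 1 + (k + 1) * T] := modEq_of_dvd_both (dvd_refl _) (hMN k hk)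
      have h1 := poly_congr p (1 + (k + 1) * T) (Sum.elim (Option.elim' c v) a)
        (Sum.elim (Option.elim' k v) (t k)) (by
          rintro ((_ | x) | i)
          · exact hkc.symm
          · exact Nat.ModEq.refl _
          · exact ha i k (mem_range.2 hk))
      rw [ht k hk, sub_zero] at h1
      exact Int.natCast_dvd.1 h1
  · rintro ⟨u, c, a, hN, ha, hp⟩ k hk
    set T : ℕ := baseT q v y u with hT
    set N : ℕ := 1 + (c + 1) * T with hNdef
    have hTpos : 0 < T := Nat.factorial_pos _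
    have hM1 : 1 + (k + 1) * T ≠ 1 := by
      have : 0 < (k + 1) * T := by positivity
      omega
    obtain ⟨r, hr, hrM⟩ := Nat.exists_prime_and_dvd hM1
    have hMN : 1 + (k + 1) * T ∣ N := by
      rw [hN]
      exact Finset.dvd_prod_of_mem (fun k => 1 + (k + 1) * T) (mem_range.2 hk)
    have hrN : r ∣ N := hrM.trans hMN
    have hrT : ¬ r ∣ T := by
      intro h
      have h1 : r ∣ (k + 1) * T := h.trans (Dvd.intro_left _ rfl)
      have h2 : r ∣ 1 := (Nat.dvd_add_left h1).1 hrM
      exact hr.one_lt.ne' (Nat.dvd_one.1 h2)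
    have hrQ : (q (Sum.elim (Option.elim' y v) (fun _ => u))).natAbs + u + y < r := by
      by_contra hcon
      exact hrT (hr.dvd_factorial.2 (not_lt.1 hcon))
    have hsel : ∀ i : Fin m, ∃ t : ℕ, t ≤ u ∧ t ≡ a i [MOD r] := by
      intro i
      have h1 : r ∣ (a i).descFactorial (u + 1) := hrN.trans (ha i)
      rw [Nat.descFactorial_eq_prod_range] at h1
      obtain ⟨j, hj, hrj⟩ := (Prime.dvd_finsetProd_iff hr.prime _).1 h1
      have hj' := mem_range.1 hj
      rcases Nat.lt_or_ge (a i) j with hlt | hge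
      · exact ⟨a i, by omega, Nat.ModEq.refl _⟩
      · exact ⟨j, by omega, (Nat.modEq_iff_dvd' hge).2 hrj⟩
    choose t ht using hsel
    refine ⟨t, ?_⟩
    have hkc : k ≡ c [MOD r] := modEq_of_dvd_both hrM hrN
    have h1 := poly_congr p r (Sum.elim (Option.elim' k v) t)
        (Sum.elim (Option.elim' c v) a) (by
          rintro ((_ | x) | i)
          · exact hkc
          · exact Nat.ModEq.refl _
          · exact (ht i).2)
    have h2 : (r : ℤ) ∣ p (Sum.elim (Option.elim' c v) a) :=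
      Int.natCast_dvd.2 (hrN.trans hp)
    have h3 : (r : ℤ) ∣ p (Sum.elim (Option.elim' k v) t) := (dvd_iff_dvd_of_dvd_sub h1).2 h2
    have h4 : |p (Sum.elim (Option.elim' k v) t)| ≤ q (Sum.elim (Option.elim' y v) (fun _ => u)) := by
      refine hq _ _ ?_
      rintro ((_ | x) | i)
      · exact hk.le
      · exact le_refl _
      · exact (ht i).1
    have h5 : |p (Sum.elim (Option.elim' k v) t)| < r := by
      refine lt_of_le_of_lt h4 ?_
      have h6 : q (Sum.elim (Option.elim' y v) (fun _ => u)) ≤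
          ((q (Sum.elim (Option.elim' y v) (fun _ => u))).natAbs : ℤ) := Int.le_natAbs
      omega
    exact Int.eq_zero_of_abs_lt_dvd h3 h5

end key

section main

variable {α : Type}

theorem ball_dioph_aux {S : Set (Option α → ℕ)} (h : Dioph S) :
    Dioph {v : Option α → ℕ | ∀ k < v none, Option.elim' k (v ∘ some) ∈ S} := by
  obtain ⟨m, p, hp⟩ := dioph_finite h
  obtain ⟨q, hq⟩ := poly_bound p
  let u : Option α ⊕ (Fin m ⊕ Fin 2) := Sum.inr (Sum.inr 0)
  let c : Option α ⊕ (Fin m ⊕ Fin 2) := Sum.inr (Sum.inr 1)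
  let y : Option α ⊕ (Fin m ⊕ Fin 2) := Sum.inl none
  have du : DiophFn (fun w : Option α ⊕ (Fin m ⊕ Fin 2) → ℕ => w u) := proj_dioph _
  have dc : DiophFn (fun w : Option α ⊕ (Fin m ⊕ Fin 2) → ℕ => w c) := proj_dioph _
  have dy : DiophFn (fun w : Option α ⊕ (Fin m ⊕ Fin 2) → ℕ => w y) := proj_dioph _
  have dai : ∀ i : Fin m, DiophFn (fun w : Option α ⊕ (Fin m ⊕ Fin 2) → ℕ =>
    w (Sum.inr (Sum.inl i))) := fun i => proj_dioph _
  have dq : DiophFn (fun w : Option α ⊕ (Fin m ⊕ Fin 2) → ℕ =>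
      (q (Sum.elim (Option.elim' (w y) (fun x => w (Sum.inl (some x)))) (fun _ => w u))).natAbs) := by
    have h2 := abs_poly_dioph (Poly.map (Sum.elim (Option.elim' y
        (fun x => Sum.inl (some x))) (fun _ => u)) q)
    refine fn_congr h2 fun w => ?_
    simp only [Poly.map_apply]
    congr 2
    funext x
    rcases x with (_ | x) | i <;> rfl
  have dp : DiophFn (fun w : Option α ⊕ (Fin m ⊕ Fin 2) → ℕ =>
      (p (Sum.elim (Option.elim' (w c) (fun x => w (Sum.inl (some x))))
        (fun i => w (Sum.inr (Sum.inl i))))).natAbs) := by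
    have h2 := abs_poly_dioph (Poly.map (Sum.elim (Option.elim' c
        (fun x => Sum.inl (some x))) (fun i => Sum.inr (Sum.inl i))) p)
    refine fn_congr h2 fun w => ?_
    simp only [Poly.map_apply]
    congr 2
    funext x
    rcases x with (_ | x) | i <;> rfl
  have dT : DiophFn (fun w : Option α ⊕ (Fin m ⊕ Fin 2) → ℕ =>
      baseT q (fun x => w (Sum.inl (some x))) (w y) (w u)) :=
    factorial_dioph (add_dioph (add_dioph dq du) dy)
  have dN : DiophFn (fun w : Option α ⊕ (Fin m ⊕ Fin 2) → ℕ =>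
      1 + (w c + 1) * baseT q (fun x => w (Sum.inl (some x))) (w y) (w u)) :=
    add_dioph (cst_dioph 1) (mul_dioph (add_dioph dc (cst_dioph 1)) dT)
  have dB : DiophFn (fun w : Option α ⊕ (Fin m ⊕ Fin 2) → ℕ =>
      bprod (baseT q (fun x => w (Sum.inl (some x))) (w y) (w u)) (w y)) := by
    refine fn_congr (bprod_dioph (sub_dioph dT (cst_dioph 1)) dy) fun w => ?_
    congr 1
    exact Nat.sub_add_cancel (Nat.factorial_pos _)
  have main := (eq_dioph dN dB).inter ((forall_dioph fun i => dvd_dioph dN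
    (descFactorial_dioph (dai i) (add_dioph du (cst_dioph 1)))).inter (dvd_dioph dN dp))
  have main2 := (ex_dioph main)
  have dy' : DiophFn (fun w : Option α → ℕ => w none) := proj_dioph _
  have main3 := (eq_dioph dy' (cst_dioph 0)).union main2
  refine Dioph.ext main3 fun v => ?_
  simp only [Set.mem_union, Set.mem_ofPred_eq, Set.mem_inter_iff]
  rcases Nat.eq_zero_or_pos (v none) with h0 | hpos
  · simp [h0]
  · have hne : v none ≠ 0 := hpos.ne'
    simp only [hne, false_or]
    have hk := key_iff p q hq (v ∘ some) (v none) hpos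
    have hS : ∀ k, Option.elim' k (v ∘ some) ∈ S ↔
        ∃ t : Fin m → ℕ, p (Sum.elim (Option.elim' k (v ∘ some)) t) = 0 := fun k => hp _
    simp only [hS]
    rw [hk]
    constructor
    · rintro ⟨x, h1, h2, h3⟩
      exact ⟨x (Sum.inr 0), x (Sum.inr 1), fun i => x (Sum.inl i), h1, h2, h3⟩
    · rintro ⟨u', c', a', h1, h2, h3⟩
      exact ⟨Sum.elim a' ![u', c'], h1, h2, h3⟩

/-- **Bounded universal quantifier theorem.** -/
theorem ball_dioph {S : Set (Option α → ℕ)} (h : Dioph S) {f : (α → ℕ) → ℕ} (df : DiophFn f) :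
    Dioph {v : α → ℕ | ∀ k < f v, Option.elim' k v ∈ S} :=
  Dioph.ext (diophFn_comp1 (ball_dioph_aux h) df) fun v => Iff.rfl

end main

end Pool.Agent.H96.DPRM
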