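import Mathlib
import Pool.Agent.H96.DPRM.Bounded

set_option autoImplicit false

/-!
Graphs of partial recursive functions are Diophantine.
-/

namespace Pool.Agent.H96.DPRM

open Dioph

theorem pair_dioph {α : Type} {f g : (α → ℕ) → ℕ} (df : DiophFn f) (dg : DiophFn g) :
    DiophFn fun v => Nat.pair (f v) (g v) := by
  have h0 : DiophFn (fun v : Option α → ℕ => v none) := proj_dioph _
  have h1 : DiophFn (fun v : Option α → ℕ => f (v ∘ some)) := reindex_diophFn some df
  have h2 : DiophFn (fun v : Option α → ℕ => g (v ∘ some)) := reindex_diophFn some dg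
  refine Dioph.ext (((lt_dioph h1 h2).inter (eq_dioph (add_dioph (mul_dioph h2 h2) h1) h0)).union
    ((le_dioph h2 h1).inter (eq_dioph (add_dioph (add_dioph (mul_dioph h1 h1) h1) h2) h0)))
    fun v => ?_
  simp only [Set.mem_union, Set.mem_inter_iff, Set.mem_ofPred_eq, Nat.pair]
  split_ifs with h
  · constructor
    · rintro (⟨_, h3⟩ | ⟨h3, _⟩)
      · exact h3
      · omega
    · intro h3
      exact Or.inl ⟨h, h3⟩
  · constructor
    · rintro (⟨h3, _⟩ | ⟨_, h3⟩)
      · omega
      · exact h3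
    · intro h3
      exact Or.inr ⟨by omega, h3⟩

theorem unpair1_dioph {α : Type} {f : (α → ℕ) → ℕ} (df : DiophFn f) :
    DiophFn fun v => (f v).unpair.1 := by
  have h0 : DiophFn (fun v : Option (Option α) → ℕ => v none) := proj_dioph _
  have h1 : DiophFn (fun v : Option (Option α) → ℕ => v (some none)) := proj_dioph _
  have h2 : DiophFn (fun v : Option (Option α) → ℕ => f (v ∘ (some ∘ some))) :=
    reindex_diophFn (some ∘ some) df
  refine Dioph.ext (ex1_dioph (eq_dioph (pair_dioph h1 h0) h2)) fun v => ?_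
  constructor
  · rintro ⟨x, hx⟩
    have hx' : Nat.pair (v none) x = f (v ∘ some) := hx
    show (f (v ∘ some)).unpair.1 = v none
    rw [← hx', Nat.unpair_pair]
  · intro h
    have h' : (f (v ∘ some)).unpair.1 = v none := h
    refine ⟨(f (v ∘ some)).unpair.2, ?_⟩
    show Nat.pair (v none) (f (v ∘ some)).unpair.2 = f (v ∘ some)
    rw [← h', Nat.pair_unpair]

theorem unpair2_dioph {α : Type} {f : (α → ℕ) → ℕ} (df : DiophFn f) :
    DiophFn fun v => (f v).unpair.2 := by
  have h0 : DiophFn (fun v : Option (Option α) → ℕ => v none) := proj_dioph _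
  have h1 : DiophFn (fun v : Option (Option α) → ℕ => v (some none)) := proj_dioph _
  have h2 : DiophFn (fun v : Option (Option α) → ℕ => f (v ∘ (some ∘ some))) :=
    reindex_diophFn (some ∘ some) df
  refine Dioph.ext (ex1_dioph (eq_dioph (pair_dioph h0 h1) h2)) fun v => ?_
  constructor
  · rintro ⟨x, hx⟩
    have hx' : Nat.pair x (v none) = f (v ∘ some) := hx
    show (f (v ∘ some)).unpair.2 = v none
    rw [← hx', Nat.unpair_pair]
  · intro h
    have h' : (f (v ∘ some)).unpair.2 = v none := h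
    refine ⟨(f (v ∘ some)).unpair.1, ?_⟩
    show Nat.pair (f (v ∘ some)).unpair.1 (v none) = f (v ∘ some)
    rw [← h', Nat.pair_unpair]

theorem beta_dioph {α : Type} {f g : (α → ℕ) → ℕ} (df : DiophFn f) (dg : DiophFn g) :
    DiophFn fun v => Nat.beta (f v) (g v) :=
  mod_dioph (unpair1_dioph df) (add_dioph (mul_dioph (add_dioph dg (cst_dioph 1))
    (unpair2_dioph df)) (cst_dioph 1))

theorem exists_beta (s : ℕ → ℕ) (n : ℕ) : ∃ b, ∀ i ≤ n, Nat.beta b i = s i := by
  refine ⟨Nat.unbeta ((List.range (n + 1)).map s), fun i hi => ?_⟩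
  have h := Nat.beta_unbeta_coe ((List.range (n + 1)).map s) ⟨i, by simp; omega⟩
  simp only [Fin.getElem_fin, List.getElem_map, List.getElem_range] at h
  exact h

/-- The graph of a partial function is Diophantine. -/
def DGraph (f : ℕ →. ℕ) : Prop :=
  Dioph {v : Vector3 ℕ 2 | v (Fin2.ofNat' 1) ∈ f (v (Fin2.ofNat' 0))}

theorem DGraph.comp {f : ℕ →. ℕ} (hf : DGraph f) {α : Type} {g h : (α → ℕ) → ℕ}
    (dg : DiophFn g) (dh : DiophFn h) : Dioph {v : α → ℕ | h v ∈ f (g v)} :=
  dioph_comp2 (S := fun x y => y ∈ f x) dg dh hf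

theorem dgraph_total {f : ℕ → ℕ} (df : DiophFn (fun v : Vector3 ℕ 2 => f (v (Fin2.ofNat' 0)))) :
    DGraph (f : ℕ →. ℕ) := by
  have h1 : DiophFn (fun v : Vector3 ℕ 2 => v (Fin2.ofNat' 1)) := proj_dioph _
  refine Dioph.ext (eq_dioph h1 df) fun v => ?_
  exact (Part.mem_some_iff (a := f (v (Fin2.ofNat' 0)))).symm

theorem rec_iff {f g : ℕ →. ℕ} (a n z : ℕ) :
    z ∈ (Nat.rec (f a) (fun y IH => do let i ← IH; g (Nat.pair a (Nat.pair y i))) n : Part ℕ) ↔
    ∃ s, Nat.beta s 0 ∈ f a ∧
      (∀ k < n, Nat.beta s (k + 1) ∈ g (Nat.pair a (Nat.pair k (Nat.beta s k)))) ∧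
      Nat.beta s n = z := by
  have key : z ∈ (Nat.rec (f a) (fun y IH => do let i ← IH; g (Nat.pair a (Nat.pair y i))) n :
      Part ℕ) ↔ ∃ s : ℕ → ℕ, s 0 ∈ f a ∧
      (∀ k < n, s (k + 1) ∈ g (Nat.pair a (Nat.pair k (s k)))) ∧ s n = z := by
    induction n generalizing z with
    | zero =>
      constructor
      · intro h
        exact ⟨fun _ => z, h, fun k hk => absurd hk (Nat.not_lt_zero k), rfl⟩
      · rintro ⟨s, h0, -, rfl⟩
        exact h0
    | succ n ih =>
      constructor
      · intro h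
        have h' : z ∈ ((Nat.rec (f a) (fun y IH => do let i ← IH; g (Nat.pair a (Nat.pair y i))) n :
          Part ℕ).bind fun i => g (Nat.pair a (Nat.pair n i))) := h
        obtain ⟨i, hi, hz⟩ := Part.mem_bind_iff.1 h'
        obtain ⟨s, h0, hs, hsn⟩ := (ih i).1 hi
        refine ⟨fun k => if k ≤ n then s k else z, by simpa using h0, fun k hk => ?_, by simp⟩
        rcases Nat.lt_or_ge k n with hlt | hge
        · have h1 : k + 1 ≤ n := hlt
          simp only [h1, hlt.le, if_true]
          exact hs k hlt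
        · have h1 : k = n := by omega
          subst h1
          simp only [le_refl, if_true, Nat.not_succ_le_self, if_false]
          rw [hsn]
          exact hz
      · rintro ⟨s, h0, hs, rfl⟩
        have h1 := (ih (s n)).2 ⟨s, h0, fun k hk => hs k (by omega), rfl⟩
        show s (n + 1) ∈ ((Nat.rec (f a) (fun y IH => do let i ← IH; g (Nat.pair a (Nat.pair y i))) n :
          Part ℕ).bind fun i => g (Nat.pair a (Nat.pair n i)))
        exact Part.mem_bind_iff.2 ⟨s n, h1, hs n (by omega)⟩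
  rw [key]
  constructor
  · rintro ⟨s, h0, hs, hsn⟩
    obtain ⟨b, hb⟩ := exists_beta s n
    refine ⟨b, by rw [hb 0 (by omega)]; exact h0, fun k hk => ?_, by rw [hb n le_rfl]; exact hsn⟩
    rw [hb k (by omega), hb (k + 1) (by omega)]
    exact hs k hk
  · rintro ⟨b, h0, hs, hsn⟩
    exact ⟨Nat.beta b, h0, hs, hsn⟩

theorem dgraph_of_partrec {f : ℕ →. ℕ} (hf : Nat.Partrec f) : DGraph f := by
  have p0 : DiophFn (fun v : Vector3 ℕ 2 => v (Fin2.ofNat' 0)) := proj_dioph _
  have p1 : DiophFn (fun v : Vector3 ℕ 2 => v (Fin2.ofNat' 1)) := proj_dioph _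
  induction hf with
  | zero =>
    refine Dioph.ext (eq_dioph p1 (cst_dioph 0)) fun v => ?_
    exact (Part.mem_some_iff (a := (0 : ℕ))).symm
  | succ => exact dgraph_total (f := Nat.succ) (add_dioph p0 (cst_dioph 1))
  | left => exact dgraph_total (f := fun n => n.unpair.1) (unpair1_dioph p0)
  | right => exact dgraph_total (f := fun n => n.unpair.2) (unpair2_dioph p0)
  | @pair f g _ _ hf hg =>
    -- variables: none = b, some none = a
    have q0 : DiophFn (fun v : Option (Option (Fin2 2)) → ℕ => v none) := proj_dioph _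
    have q1 : DiophFn (fun v : Option (Option (Fin2 2)) → ℕ => v (some none)) := proj_dioph _
    have q2 : DiophFn (fun v : Option (Option (Fin2 2)) → ℕ => v (some (some (Fin2.ofNat' 0)))) :=
      proj_dioph _
    have q3 : DiophFn (fun v : Option (Option (Fin2 2)) → ℕ => v (some (some (Fin2.ofNat' 1)))) :=
      proj_dioph _
    refine Dioph.ext (ex1_dioph (ex1_dioph ((hf.comp q2 q1).inter ((hg.comp q2 q0).inter
      (eq_dioph (pair_dioph q1 q0) q3))))) fun v => ?_
    simp only [Set.mem_ofPred_eq, Set.mem_inter_iff, Option.elim'_none, Option.elim'_some,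
      Seq.seq, Part.map_eq_map, Part.mem_bind_iff, Part.mem_map_iff]
    constructor
    · rintro ⟨a, b, ha, hb, hab⟩
      exact ⟨_, ⟨a, ha, rfl⟩, b, hb, hab⟩
    · rintro ⟨_, ⟨a, ha, rfl⟩, b, hb, hab⟩
      exact ⟨a, b, ha, hb, hab⟩
  | @comp f g _ _ hf hg =>
    have q0 : DiophFn (fun v : Option (Fin2 2) → ℕ => v none) := proj_dioph _
    have q2 : DiophFn (fun v : Option (Fin2 2) → ℕ => v (some (Fin2.ofNat' 0))) := proj_dioph _
    have q3 : DiophFn (fun v : Option (Fin2 2) → ℕ => v (some (Fin2.ofNat' 1))) := proj_dioph _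
    refine Dioph.ext (ex1_dioph ((hg.comp q2 q0).inter (hf.comp q0 q3))) fun v => ?_
    exact (Part.mem_bind_iff (f := g (v (Fin2.ofNat' 0))) (g := f)).symm
  | @prec f g _ _ hf hg =>
    -- variables: none = s, some 0 = input, some 1 = output
    have q0 : DiophFn (fun v : Option (Fin2 2) → ℕ => v none) := proj_dioph _
    have q2 : DiophFn (fun v : Option (Fin2 2) → ℕ => v (some (Fin2.ofNat' 0))) := proj_dioph _
    have q3 : DiophFn (fun v : Option (Fin2 2) → ℕ => v (some (Fin2.ofNat' 1))) := proj_dioph _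
    -- inner variables: none = k, some none = s
    have r0 : DiophFn (fun v : Option (Option (Fin2 2)) → ℕ => v none) := proj_dioph _
    have r1 : DiophFn (fun v : Option (Option (Fin2 2)) → ℕ => v (some none)) := proj_dioph _
    have r2 : DiophFn (fun v : Option (Option (Fin2 2)) → ℕ => v (some (some (Fin2.ofNat' 0)))) :=
      proj_dioph _
    have dstep := hg.comp (pair_dioph (unpair1_dioph r2) (pair_dioph r0 (beta_dioph r1 r0)))
      (beta_dioph r1 (add_dioph r0 (cst_dioph 1)))
    have dall := ball_dioph dstep (unpair2_dioph q2)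
    refine Dioph.ext (ex1_dioph ((hf.comp (unpair1_dioph q2) (beta_dioph q0 (cst_dioph 0))).inter
      (dall.inter (eq_dioph (beta_dioph q0 (unpair2_dioph q2)) q3)))) fun v => ?_
    have h := rec_iff (f := f) (g := g) (v (Fin2.ofNat' 0)).unpair.1 (v (Fin2.ofNat' 0)).unpair.2
      (v (Fin2.ofNat' 1))
    exact h.symm
  | @rfind f _ hf =>
    have q0 : DiophFn (fun v : Option (Fin2 2) → ℕ => v none) := proj_dioph _
    have q2 : DiophFn (fun v : Option (Fin2 2) → ℕ => v (some (Fin2.ofNat' 0))) := proj_dioph _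
    -- inner: none = w, some none = k
    have r0 : DiophFn (fun v : Option (Option (Fin2 2)) → ℕ => v none) := proj_dioph _
    have r1 : DiophFn (fun v : Option (Option (Fin2 2)) → ℕ => v (some none)) := proj_dioph _
    have r2 : DiophFn (fun v : Option (Option (Fin2 2)) → ℕ => v (some (some (Fin2.ofNat' 0)))) :=
      proj_dioph _
    have dstep := ex1_dioph ((hf.comp (pair_dioph r2 r1) r0).inter (ne_dioph r0 (cst_dioph 0)))
    have dall := ball_dioph dstep p1
    refine Dioph.ext ((hf.comp (pair_dioph p0 p1) (cst_dioph 0)).inter dall) fun v => ?_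
    refine Iff.trans ?_ (Nat.mem_rfind (p := fun n => Part.map (fun m => decide (m = 0))
      (f (Nat.pair (v (Fin2.ofNat' 0)) n))) (n := v (Fin2.ofNat' 1))).symm
    simp only [Part.mem_map_iff, decide_eq_true_eq, decide_eq_false_iff_not]
    constructor
    · rintro ⟨ha, h2⟩
      exact ⟨⟨0, ha, rfl⟩, fun {k} hk => h2 k hk⟩
    · rintro ⟨⟨a, ha, rfl⟩, h2⟩
      exact ⟨ha, fun k hk => h2 hk⟩

end Pool.Agent.H96.DPRM
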