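import Mathlib
import Pool.Agent.H96.DPRM.Partrec

set_option autoImplicit false

/-!
The DPRM theorem: every recursively enumerable predicate on the natural numbers is Diophantine,
and there is a single integer polynomial whose solvability (with one parameter) is undecidable.
-/

namespace Pool.Agent.H96.DPRM

open Dioph

theorem poly_mv {α : Type} (p : Poly α) :
    ∃ P : MvPolynomial α ℤ, ∀ v : α → ℕ, p v = MvPolynomial.eval (fun i => (v i : ℤ)) P := by
  induction p using Poly.induction with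
  | H1 i => exact ⟨MvPolynomial.X i, fun v => by simp⟩
  | H2 n => exact ⟨MvPolynomial.C n, fun v => by simp⟩
  | H3 f g hf hg =>
    obtain ⟨P, hP⟩ := hf
    obtain ⟨Q, hQ⟩ := hg
    exact ⟨P - Q, fun v => by simp [hP, hQ]⟩
  | H4 f g hf hg =>
    obtain ⟨P, hP⟩ := hf
    obtain ⟨Q, hQ⟩ := hg
    exact ⟨P * Q, fun v => by simp [hP, hQ]⟩

/-- **DPRM theorem**, natural number unknowns. -/
theorem dprm {p : ℕ → Prop} (hp : REPred p) :
    ∃ (k : ℕ) (P : MvPolynomial (Fin (k + 1)) ℤ), ∀ n : ℕ,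
      p n ↔ ∃ x : Fin k → ℕ,
        MvPolynomial.eval (Fin.cons (n : ℤ) (fun i => (x i : ℤ))) P = 0 := by
  have h1 : Partrec (fun a : ℕ => (Part.assert (p a) fun _ => Part.some ()).map
      (fun _ => (0 : ℕ))) := Partrec.map hp (Computable.const 0).to₂
  have h2 := dgraph_of_partrec (Partrec.nat_iff.1 h1)
  have q0 : DiophFn (fun v : Option Unit → ℕ => v none) := proj_dioph _
  have q1 : DiophFn (fun v : Option Unit → ℕ => v (some ())) := proj_dioph _
  have h3 := ex1_dioph (h2.comp q1 q0)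
  obtain ⟨m, q, hq⟩ := dioph_finite h3
  obtain ⟨Q, hQ⟩ := poly_mv q
  refine ⟨m, MvPolynomial.rename (Sum.elim (fun _ => (0 : Fin (m + 1))) Fin.succ) Q, fun n => ?_⟩
  have h4 := hq (fun _ => n)
  have h5 : ((fun _ => n : Unit → ℕ) ∈ {v : Unit → ℕ | ∃ x, Option.elim' x v ∈
      {v : Option Unit → ℕ | v none ∈ (Part.assert (p (v (some ()))) fun _ => Part.some ()).map
      (fun _ => (0 : ℕ))}}) ↔ p n := by
    simp only [Set.mem_ofPred_eq, Part.mem_map_iff, Part.mem_assert_iff]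
    constructor
    · rintro ⟨x, u, ⟨hu, -⟩, -⟩
      exact hu
    · intro h
      exact ⟨0, (), ⟨h, Part.mem_some _⟩, rfl⟩
  rw [← h5]
  refine h4.trans (exists_congr fun x => ?_)
  rw [hQ, MvPolynomial.eval_rename]
  have h6 : (fun i : Unit ⊕ Fin m => ((Sum.elim (fun _ => n) x i : ℕ) : ℤ)) =
      (Fin.cons (n : ℤ) (fun i => (x i : ℤ)) : Fin (m + 1) → ℤ) ∘
        (Sum.elim (fun _ => (0 : Fin (m + 1))) Fin.succ) := by
    funext i
    rcases i with i | i <;> simp
  rw [h6]

/-- **DPRM theorem**, integer unknowns. -/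
theorem dprm_int {p : ℕ → Prop} (hp : REPred p) :
    ∃ (k : ℕ) (P : MvPolynomial (Fin (k + 1)) ℤ), ∀ n : ℕ,
      p n ↔ ∃ x : Fin k → ℤ, MvPolynomial.eval (Fin.cons (n : ℤ) x) P = 0 := by
  obtain ⟨k, P, hP⟩ := dprm hp
  let e : Fin k × Fin 4 ≃ Fin (k * 4) := finProdFinEquiv
  refine ⟨k * 4, MvPolynomial.bind₁ (Fin.cons (MvPolynomial.X 0)
    (fun i => ∑ j : Fin 4, (MvPolynomial.X (Fin.succ (e (i, j)))) ^ 2)) P, fun n => ?_⟩
  rw [hP n]
  have key : ∀ y : Fin (k * 4) → ℤ, MvPolynomial.eval (Fin.cons (n : ℤ) y)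
      (MvPolynomial.bind₁ (Fin.cons (MvPolynomial.X 0)
        (fun i => ∑ j : Fin 4, (MvPolynomial.X (Fin.succ (e (i, j)))) ^ 2)) P) =
      MvPolynomial.eval (Fin.cons (n : ℤ) (fun i => ∑ j : Fin 4, (y (e (i, j))) ^ 2)) P := by
    intro y
    rw [MvPolynomial.eval, MvPolynomial.eval₂Hom_bind₁]
    congr 2
    funext i
    refine Fin.cases ?_ (fun i => ?_) i
    · simp
    · simp
  constructor
  · rintro ⟨x, hx⟩
    have hs : ∀ i, ∃ a : Fin 4 → ℤ, ∑ j, a j ^ 2 = (x i : ℤ) := by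
      intro i
      obtain ⟨a, b, c, d, h⟩ := Nat.sum_four_squares (x i)
      refine ⟨![a, b, c, d], ?_⟩
      simp [Fin.sum_univ_four]
      exact_mod_cast h
    choose a ha using hs
    refine ⟨fun t => a (e.symm t).1 (e.symm t).2, ?_⟩
    rw [key]
    simpa [ha] using hx
  · rintro ⟨y, hy⟩
    rw [key] at hy
    refine ⟨fun i => (∑ j : Fin 4, (y (e (i, j))) ^ 2).toNat, ?_⟩
    have h : ∀ i, (((∑ j : Fin 4, (y (e (i, j))) ^ 2).toNat : ℕ) : ℤ) =
        ∑ j : Fin 4, (y (e (i, j))) ^ 2 := fun i =>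
      Int.toNat_of_nonneg (Finset.sum_nonneg fun j _ => sq_nonneg _)
    simpa [h] using hy

/-- A recursively enumerable, noncomputable predicate on the natural numbers. -/
theorem exists_re_not_computable : ∃ p : ℕ → Prop, REPred p ∧ ¬ ComputablePred p := by
  refine ⟨fun n => (Nat.Partrec.Code.eval (Denumerable.ofNat Nat.Partrec.Code n) 0).Dom, ?_, ?_⟩
  · have h := ComputablePred.halting_problem_re 0
    exact Partrec.comp h (Computable.ofNat Nat.Partrec.Code)
  · intro h
    refine ComputablePred.halting_problem 0 ?_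
    obtain ⟨f, hf⟩ := h
    have h2 := ComputablePred.computable_iff.1 ⟨f, hf⟩
    obtain ⟨g, hg, hgf⟩ := h2
    refine ComputablePred.computable_iff.2 ⟨fun c => g (Encodable.encode c),
      hg.comp Computable.encode, ?_⟩
    funext c
    have h3 := congrFun hgf (Encodable.encode c)
    simpa using h3

/-- One-parameter polynomial families with undecidable solvability in natural numbers. -/
theorem exists_poly_not_computable : ∃ (k : ℕ) (P : MvPolynomial (Fin (k + 1)) ℤ),
    ¬ ComputablePred (fun n : ℕ => ∃ x : Fin k → ℕ,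
      MvPolynomial.eval (Fin.cons (n : ℤ) (fun i => (x i : ℤ))) P = 0) := by
  obtain ⟨p, hp, hn⟩ := exists_re_not_computable
  obtain ⟨k, P, hP⟩ := dprm hp
  refine ⟨k, P, fun h => hn ?_⟩
  have : p = (fun n : ℕ => ∃ x : Fin k → ℕ,
      MvPolynomial.eval (Fin.cons (n : ℤ) (fun i => (x i : ℤ))) P = 0) :=
    funext fun n => propext (hP n)
  rw [this]
  exact h

/-- One-parameter polynomial families with undecidable solvability in integers. -/
theorem exists_poly_not_computable_int : ∃ (k : ℕ) (P : MvPolynomial (Fin (k + 1)) ℤ),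
    ¬ ComputablePred (fun n : ℕ => ∃ x : Fin k → ℤ,
      MvPolynomial.eval (Fin.cons (n : ℤ) x) P = 0) := by
  obtain ⟨p, hp, hn⟩ := exists_re_not_computable
  obtain ⟨k, P, hP⟩ := dprm_int hp
  refine ⟨k, P, fun h => hn ?_⟩
  have : p = (fun n : ℕ => ∃ x : Fin k → ℤ,
      MvPolynomial.eval (Fin.cons (n : ℤ) x) P = 0) :=
    funext fun n => propext (hP n)
  rw [this]
  exact h

end Pool.Agent.H96.DPRM
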